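import Mathlib
import Pool.Agent.Helper89.PeterWeyl

/-!
Elementary Pontryagin duality for compact Hausdorff abelian groups.
-/

set_option autoImplicit false
set_option linter.unusedSectionVars false

namespace Pool.Agent.Helper91.Duality

open MeasureTheory Set

/-- The group of continuous characters of `K`. -/
def Ch (K : Type*) [AddCommGroup K] [TopologicalSpace K] :
    AddSubgroup (K →+ AddCircle (1 : ℝ)) where
  carrier := {χ | Continuous χ}
  add_mem' := fun h1 h2 => Continuous.add h1 h2
  zero_mem' := continuous_const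
  neg_mem' := fun h => Continuous.neg h

variable {K : Type*} [AddCommGroup K] [TopologicalSpace K]

theorem mem_Ch {χ : K →+ AddCircle (1 : ℝ)} : χ ∈ Ch K ↔ Continuous χ := Iff.rfl

/-- The complex-valued function attached to a continuous character. -/
noncomputable def ec (χ : Ch K) : C(K, ℂ) where
  toFun x := (AddCircle.toCircle (χ.1 x) : ℂ)
  continuous_toFun := by
    have h1 : Continuous χ.1 := χ.2
    exact continuous_subtype_val.comp (AddCircle.continuous_toCircle.comp h1)

theorem ec_apply (χ : Ch K) (x : K) : ec χ x = (AddCircle.toCircle (χ.1 x) : ℂ) := rfl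

theorem ec_zero : ec (0 : Ch K) = 1 := by
  ext x
  simp [ec_apply]

theorem ec_add (χ ψ : Ch K) : ec (χ + ψ) = ec χ * ec ψ := by
  ext x
  simp [ec_apply, AddCircle.toCircle_add]

theorem ec_neg (χ : Ch K) : ec (-χ) = star (ec χ) := by
  ext x
  rw [ContinuousMap.star_apply, ec_apply, ec_apply]
  have : (-χ : Ch K).1 x = -(χ.1 x) := rfl
  rw [this, AddCircle.toCircle_neg, Circle.coe_inv_eq_conj]
  rfl

variable [IsTopologicalAddGroup K] [CompactSpace K]

theorem integral_ec_eq_zero [MeasurableSpace K] [BorelSpace K] (μ : Measure K)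
    [μ.IsAddLeftInvariant] {χ : Ch K} (hχ : χ ≠ 0) : ∫ x, ec χ x ∂μ = 0 := by
  obtain ⟨a, ha⟩ : ∃ a, χ.1 a ≠ 0 := by
    by_contra hcon
    push Not at hcon
    apply hχ
    ext x
    simp [hcon x]
  have h1 := integral_add_left_eq_self (μ := μ) (fun x => ec χ x) a
  have h2 : (fun x => ec χ (a + x)) = fun x => ec χ a * ec χ x := by
    funext x
    rw [ec_apply, ec_apply, ec_apply, map_add, AddCircle.toCircle_add]
    rfl
  rw [h2, integral_const_mul] at h1
  have h3 : ec χ a ≠ 1 := by
    intro h
    apply ha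
    rw [ec_apply] at h
    have h4 : AddCircle.toCircle (χ.1 a) = 1 := Circle.ext h
    exact AddCircle.injective_toCircle one_ne_zero (h4.trans AddCircle.toCircle_zero.symm)
  have h5 : (ec χ a - 1) * ∫ x, ec χ x ∂μ = 0 := by
    rw [sub_mul, one_mul, h1, sub_self]
  exact (mul_eq_zero.mp h5).resolve_left (sub_ne_zero.mpr h3)

/-- **C1.** A subgroup of characters separating points is the group of all characters. -/
theorem Ch_eq_of_separates [T2Space K] (S : AddSubgroup (K →+ AddCircle (1 : ℝ)))
    (hS : S ≤ Ch K) (hsep : ∀ x : K, (∀ χ ∈ S, χ x = 0) → x = 0) : S = Ch K := by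
  refine le_antisymm hS ?_
  intro ψ hψ
  by_contra hψS
  borelize K
  let K0 : TopologicalSpace.PositiveCompacts K := ⟨⟨Set.univ, isCompact_univ⟩, by simp⟩
  let μ : Measure K := Measure.addHaarMeasure K0
  have hprob : IsProbabilityMeasure μ := ⟨Measure.addHaarMeasure_self (K₀ := K0)⟩
  let R : Set C(K, ℂ) := range (fun χ : S => ec ⟨χ.1, hS χ.2⟩)
  let A : StarSubalgebra ℂ C(K, ℂ) :=
    { toSubalgebra := Algebra.adjoin ℂ R
      star_mem' := by
        change Algebra.adjoin ℂ R ≤ star (Algebra.adjoin ℂ R)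
        refine Algebra.adjoin_le ?_
        rintro - ⟨χ, rfl⟩
        exact Algebra.subset_adjoin ⟨-χ, ec_neg (⟨χ.1, hS χ.2⟩ : Ch K)⟩ }
  have hAspan : Subalgebra.toSubmodule A.toSubalgebra = Submodule.span ℂ R := by
    apply Algebra.adjoin_eq_span_of_subset
    refine Subset.trans ?_ Submodule.subset_span
    intro x hx
    refine Submonoid.closure_induction (fun _ => id) ⟨0, ?_⟩ ?_ hx
    · exact ec_zero
    · rintro - - - - ⟨m, rfl⟩ ⟨n, rfl⟩
      exact ⟨m + n, ec_add (⟨m.1, hS m.2⟩ : Ch K) (⟨n.1, hS n.2⟩ : Ch K)⟩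
  have hAsep : A.SeparatesPoints := by
    intro x y hxy
    obtain ⟨χ, hχS, hχ⟩ : ∃ χ ∈ S, χ (x - y) ≠ 0 := by
      by_contra hcon
      push Not at hcon
      exact hxy (sub_eq_zero.mp (hsep _ hcon))
    refine ⟨_, ⟨ec ⟨χ, hS hχS⟩, Algebra.subset_adjoin ⟨⟨χ, hχS⟩, rfl⟩, rfl⟩, ?_⟩
    intro h
    apply hχ
    rw [map_sub, sub_eq_zero]
    exact AddCircle.injective_toCircle one_ne_zero (Circle.ext h)
  have hdense := ContinuousMap.starSubalgebra_topologicalClosure_eq_top_of_separatesPoints A hAsep
  -- the functional of integration against the conjugate of `ψ`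
  let ψ' : Ch K := ⟨ψ, hψ⟩
  let L : C(K, ℂ) → ℂ := fun f => ∫ x, f x * ec (-ψ') x ∂μ
  have hint : ∀ f : C(K, ℂ), Integrable (fun x => f x * ec (-ψ') x) μ := fun f =>
    (f.continuous.mul (ec (-ψ')).continuous).integrable_of_hasCompactSupport
      (HasCompactSupport.of_compactSpace _)
  have hLzero : ∀ f ∈ Submodule.span ℂ R, L f = 0 := by
    intro f hf
    induction hf using Submodule.span_induction with
    | mem f hf =>
      obtain ⟨χ, rfl⟩ := hf
      change ∫ x, ec (⟨χ.1, hS χ.2⟩ : Ch K) x * ec (-ψ') x ∂μ = 0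
      have h1 : (fun x => ec (⟨χ.1, hS χ.2⟩ : Ch K) x * ec (-ψ') x) =
          fun x => ec ((⟨χ.1, hS χ.2⟩ : Ch K) + -ψ') x := by
        funext x
        rw [ec_add]; rfl
      rw [h1]
      apply integral_ec_eq_zero
      intro h2
      apply hψS
      have h3 : (⟨χ.1, hS χ.2⟩ : Ch K) = ψ' := by
        rw [← sub_eq_zero, sub_eq_add_neg]; exact h2
      have h4 : χ.1 = ψ := congrArg Subtype.val h3
      rw [← h4]
      exact χ.2
    | zero => simp [L]
    | add f g _ _ h1 h2 =>
      have h3 : L (f + g) = L f + L g := by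
        simp only [L, ContinuousMap.add_apply, add_mul]
        exact integral_add (hint f) (hint g)
      rw [h3, h1, h2, add_zero]
    | smul c f _ h1 =>
      have h3 : L (c • f) = c * L f := by
        simp only [L, ContinuousMap.smul_apply, smul_eq_mul, mul_assoc]
        exact integral_const_mul _ _
      rw [h3, h1, mul_zero]
  have hLbound : ∀ f g : C(K, ℂ), ‖L f - L g‖ ≤ ‖f - g‖ := by
    intro f g
    have h1 : L f - L g = ∫ x, (f - g) x * ec (-ψ') x ∂μ := by
      simp only [L]
      rw [← integral_sub (hint f) (hint g)]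
      congr 1
      funext x
      simp [sub_mul]
    rw [h1]
    have h2 : ∀ x, ‖(f - g) x * ec (-ψ') x‖ ≤ ‖f - g‖ := by
      intro x
      rw [norm_mul, ec_apply, Circle.norm_coe, mul_one]
      exact ContinuousMap.norm_coe_le_norm (f - g) x
    have h3 := norm_integral_le_of_norm_le_const (μ := μ)
      (Filter.Eventually.of_forall h2)
    simpa using h3
  have hmem : ec ψ' ∈ A.topologicalClosure := by rw [hdense]; trivial
  have hmem2 : ec ψ' ∈ closure (Submodule.span ℂ R : Set C(K, ℂ)) := by
    rw [← hAspan]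
    exact hmem
  have hL1 : L (ec ψ') = 1 := by
    have h1 : (fun x => ec ψ' x * ec (-ψ') x) = fun _ => (1 : ℂ) := by
      funext x
      have h2 : ec ψ' x * ec (-ψ') x = ec (ψ' + -ψ') x := by rw [ec_add]; rfl
      rw [h2, add_neg_cancel, ec_zero]
      rfl
    simp only [L, h1]
    simp
  obtain ⟨g, hg, hgd⟩ := Metric.mem_closure_iff.mp hmem2 1 one_pos
  have h1 := hLbound (ec ψ') g
  rw [hL1, hLzero g hg, sub_zero, norm_one, ← dist_eq_norm] at h1
  exact absurd hgd (not_lt.mpr h1)

/-- **C2.** Characters of closed subgroups extend. -/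
theorem extend_closed [T2Space K] (L : AddSubgroup K) (hL : IsClosed (L : Set K))
    (χ : L →+ AddCircle (1 : ℝ)) (hχ : Continuous χ) :
    ∃ ψ : K →+ AddCircle (1 : ℝ), Continuous ψ ∧ ∀ x : L, ψ x = χ x := by
  have : CompactSpace L := isCompact_iff_compactSpace.mp hL.isCompact
  let r : (K →+ AddCircle (1 : ℝ)) →+ (L →+ AddCircle (1 : ℝ)) :=
    { toFun := fun ψ => ψ.comp L.subtype
      map_zero' := rfl
      map_add' := fun _ _ => rfl }
  have h1 : (Ch K).map r = Ch L := by
    apply Ch_eq_of_separates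
    · rintro _ ⟨ψ, hψ, rfl⟩
      exact (mem_Ch.mp hψ).comp continuous_subtype_val
    · intro x hx
      by_contra hne
      have hne' : (x : K) ≠ 0 := fun h => hne (Subtype.ext h)
      obtain ⟨ψ, hψ, hψx⟩ := Pool.Agent.Helper89.PeterWeyl.exists_char_ne_zero hne'
      exact hψx (hx (r ψ) ⟨ψ, hψ, rfl⟩)
  have h2 : χ ∈ (Ch K).map r := by rw [h1]; exact hχ
  obtain ⟨ψ, hψ, hr⟩ := h2
  exact ⟨ψ, hψ, fun x => congrArg (fun f => f x) hr⟩

/-- **C3.** Every homomorphism on the character group is evaluation at a point. -/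
theorem dual_surj [T2Space K] (φ : Ch K →+ AddCircle (1 : ℝ)) :
    ∃ x : K, ∀ χ : Ch K, φ χ = χ.1 x := by
  -- the compact group of all homomorphisms
  let P : AddSubgroup (Ch K → AddCircle (1 : ℝ)) :=
    { carrier := {h | ∀ a b, h (a + b) = h a + h b}
      add_mem' := fun {f g} hf hg a b => by
        simp only [Pi.add_apply]
        rw [hf a b, hg a b]
        abel
      zero_mem' := fun a b => by simp
      neg_mem' := fun {f} hf a b => by
        simp only [Pi.neg_apply]
        rw [hf a b]
        abel }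
  have hPmem : ∀ h : Ch K → AddCircle (1 : ℝ), h ∈ P ↔ ∀ a b, h (a + b) = h a + h b :=
    fun _ => Iff.rfl
  have hPc : IsClosed (P : Set (Ch K → AddCircle (1 : ℝ))) := by
    have h1 : (P : Set (Ch K → AddCircle (1 : ℝ))) =
        ⋂ a, ⋂ b, {h | h (a + b) = h a + h b} := by
      ext h
      simp only [SetLike.mem_coe, hPmem, mem_iInter]
      rfl
    rw [h1]
    exact isClosed_iInter fun a => isClosed_iInter fun b =>
      isClosed_eq (continuous_apply _) (by fun_prop)
  have hPcomp : CompactSpace P := isCompact_iff_compactSpace.mp hPc.isCompact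
  let ev : K →+ P :=
    { toFun := fun x => ⟨fun χ => χ.1 x, fun a b => rfl⟩
      map_zero' := by
        ext χ
        exact map_zero χ.1
      map_add' := fun x y => by
        ext χ
        exact map_add χ.1 x y }
  have hev : Continuous ev :=
    Continuous.subtype_mk (continuous_pi fun χ => χ.2) _
  let E : AddSubgroup P := ev.range
  have hEc : IsClosed (E : Set P) := by
    have h1 : (E : Set P) = range ev := AddMonoidHom.coe_range ev
    rw [h1]
    exact (isCompact_range hev).isClosed
  let φ' : P := ⟨fun χ => φ χ, fun a b => map_add φ a b⟩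
  by_contra hcon
  push Not at hcon
  have hφE : φ' ∉ E := by
    rintro ⟨x, hx⟩
    obtain ⟨χ, hχ⟩ := hcon x
    apply hχ
    have h1 := congrArg (fun p : P => p.1 χ) hx
    exact h1.symm
  have : IsClosed (E : Set P) := hEc
  have hne : (QuotientAddGroup.mk φ' : P ⧸ E) ≠ 0 := by
    intro h
    exact hφE ((QuotientAddGroup.eq_zero_iff φ').mp h)
  obtain ⟨Ψ0, hΨ0, hΨ0ne⟩ := Pool.Agent.Helper89.PeterWeyl.exists_char_ne_zero hne
  let Ψ : P →+ AddCircle (1 : ℝ) := Ψ0.comp (QuotientAddGroup.mk' E)
  have hΨ : Continuous Ψ := hΨ0.comp QuotientAddGroup.continuous_mk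
  have hΨE : ∀ p ∈ E, Ψ p = 0 := by
    intro p hp
    change Ψ0 (QuotientAddGroup.mk p) = 0
    rw [(QuotientAddGroup.eq_zero_iff p).mpr hp, map_zero]
  -- evaluations at characters
  let w : Ch K →+ (P →+ AddCircle (1 : ℝ)) :=
    { toFun := fun χ =>
        { toFun := fun p => p.1 χ
          map_zero' := rfl
          map_add' := fun _ _ => rfl }
      map_zero' := by
        ext p
        change p.1 0 = 0
        have h1 := p.2 0 0
        rw [add_zero] at h1
        exact left_eq_add.mp h1
      map_add' := fun a b => by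
        ext p
        exact p.2 a b }
  have hw : w.range = Ch P := by
    apply Ch_eq_of_separates
    · rintro _ ⟨χ, rfl⟩
      exact (continuous_apply χ).comp continuous_subtype_val
    · intro p hp
      ext χ
      exact hp (w χ) ⟨χ, rfl⟩
  have hΨw : Ψ ∈ w.range := by rw [hw]; exact hΨ
  obtain ⟨χ, hχ⟩ := hΨw
  have hχ0 : χ = 0 := by
    ext x
    have h1 := hΨE (ev x) ⟨x, rfl⟩
    rw [← hχ] at h1
    exact h1
  apply hΨ0ne
  change Ψ φ' = 0
  rw [← hχ, hχ0, map_zero]
  rfl

/-- **C4.** The character group of a torsion-free compact group is divisible. -/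
theorem dual_divisible [T2Space K] (htf : ∀ n : ℕ, n ≠ 0 → ∀ x : K, n • x = 0 → x = 0) :
    ∀ n : ℕ, n ≠ 0 → ∀ χ : Ch K, ∃ ψ : Ch K, n • ψ = χ := by
  intro n hn χ
  let m : K →+ K := nsmulAddMonoidHom n
  have hmc : Continuous m := continuous_nsmul n
  have hminj : Function.Injective m := by
    rw [injective_iff_map_eq_zero]
    intro x hx
    exact htf n hn x hx
  let L : AddSubgroup K := m.range
  have hLc : IsClosed (L : Set K) := by
    have h1 : (L : Set K) = range m := AddMonoidHom.coe_range m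
    rw [h1]
    exact (isCompact_range hmc).isClosed
  let e : K ≃+ L := AddMonoidHom.ofInjective hminj
  have hec : Continuous e := Continuous.subtype_mk hmc _
  have hesc : Continuous e.symm := (hec.homeoOfEquivCompactToT2 (f := e.toEquiv)).symm.continuous
  obtain ⟨ψ, hψ, hψχ⟩ := extend_closed L hLc (χ.1.comp e.symm.toAddMonoidHom)
    ((mem_Ch.mp χ.2).comp hesc)
  refine ⟨⟨ψ, hψ⟩, ?_⟩
  ext x
  change n • ψ x = χ.1 x
  rw [← map_nsmul]
  have h1 := hψχ (e x)
  have h2 : ((e x : L) : K) = n • x := rfl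
  rw [h2] at h1
  rw [h1]
  simp

end Pool.Agent.Helper91.Duality
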