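import Pool.Agent.Helper91.Section.NormForm

/-!
# The section conjecture: curves given by norm forms

`k` is a field of characteristic zero, `L/k` a cyclic extension of degree `n`, `P` a polynomial over
`L` whose conjugates over `k` are pairwise coprime and such that `deg P * (n - 1)` is even, and `b`
is a nonzero element of `k`.

If a curve `X` over `k` with function field `K` admits a nonconstant map to the curve
`b vⁿ = N_{L/k}(P(u))` and `X` has a Galois section, then `b` is a norm from `L`. So all these curves
have no Galois section (and no rational point) if `b` is not a norm. For `μ_n ⊆ k`, `n` odd,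
`L = k(α)`, `αⁿ = -a`, `P = 1 - α u` this is the Fermat type curve `b vⁿ = 1 + a uⁿ`; for `n = 2`,
`L = k(√d)`, these are the hyperelliptic curves `b v² = A(u)² - d B(u)²`.
-/

universe u v

namespace Pool.Agent.Results.MP_e66f84_ag.NormForms

open Polynomial Pool.Agent.Helper91.Sect

theorem result {k K : Type u} {L : Type v} [Field k] [CharZero k] [Field K] [Algebra k K]
    -- a cyclic extension `L/k`
    [Field L] [Algebra k L] [FiniteDimensional k L] [IsGalois k L] [IsCyclic (L ≃ₐ[k] L)]
    -- a polynomial with pairwise coprime conjugates
    (P : L[X]) (hcop : ∀ σ : L ≃ₐ[k] L, σ ≠ 1 → IsCoprime P (P.map (σ : L →+* L)))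
    (hpar : Even (P.natDegree * (Module.finrank k L - 1)))
    -- its norm, a polynomial over `k`
    (N : k[X]) (hN : N.map (algebraMap k L) = ∏ σ : L ≃ₐ[k] L, P.map (σ : L →+* L))
    -- the curve `b vⁿ = N(u)`
    (b : k) (hb : b ≠ 0) (u v : K) (hu : Transcendental k u)
    (huv : algebraMap k K b * v ^ Module.finrank k L = aeval u N)
    -- a Galois section
    (s : GaloisSection k K) :
    ∃ z : L, Algebra.norm k z = b :=
  norm_of_section s P hcop hpar N hN b hb u v hu huv

end Pool.Agent.Results.MP_e66f84_ag.NormForms
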